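import Pool.Agent.Results.MP_ba8873_co.LowerBound
import Pool.Agent.Y418.BG.Breaker

/-!
# Maker's clique size in all fair and underdog `(m:b)` games

For all `1 ≤ m ≤ b` Maker can build `K_q` in the `(m:b)` game on `K_N` for every
`q ≤ 2 log_c N - 2 log_c log_c N - C`, where `c = (m+b)/m`, as random play suggests.  The case
`m = b = 2` (`c = 2`) is the question (starting file `TwoTwoClique`).  Breaker can prevent `K_q` for
`q ≥ (1 + ε) 2 m log_{1+b} N` (criterion of Erdos-Selfridge-Beck, formalised by helper418).  The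
positions and the board are those of the starting file `MP_ba8873_co.LowerBound`, which treats the
games with `m > b`.
-/

set_option autoImplicit false

namespace Pool.Agent.Results.MP_a50aef_co.FairAndUnderdog

open Finset Pool.Agent.Results.MP_ba8873_co.LowerBound

/-- Maker has a legal strategy in the `(m:b)` game on `K_N` such that, against every legal play of
Breaker, when all edges are claimed the set of Maker's edges has the property `goal`. -/
def MakerCanForce (m b N : ℕ) (goal : Finset (Sym2 (Fin N)) → Prop) : Prop :=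
  ∃ σ : Pos N → Finset (Sym2 (Fin N)), LegalStrategy m σ ∧
    ∀ R : ℕ → Finset (Sym2 (Fin N)), LegalReplies b σ R →
      ∃ i, free (play σ R i) = ∅ ∧ goal (play σ R i).maker

/-- The position after `i` rounds, when Maker claims the set `Q i` and then Breaker claims the set
`R i` in round `i`. -/
def pos {N : ℕ} (Q R : ℕ → Finset (Sym2 (Fin N))) : ℕ → Pos N
  | 0 => ⟨∅, ∅⟩
  | i + 1 => ⟨(pos Q R i).maker ∪ Q i, (pos Q R i).breaker ∪ R i⟩

/-- A legal turn of Maker: exactly `m` free edges, or all of them, if fewer than `m` are left. -/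
def LegalMaker {N : ℕ} (m : ℕ) (p : Pos N) (Q : Finset (Sym2 (Fin N))) : Prop :=
  Q ⊆ free p ∧ Q.card = min m (free p).card

/-- A legal turn of Breaker, after Maker has claimed `Q`: exactly `b` of the edges which are still
free, or all of them, if fewer than `b` are left. -/
def LegalBreaker {N : ℕ} (b : ℕ) (p : Pos N) (Q R : Finset (Sym2 (Fin N))) : Prop :=
  R ⊆ free p \ Q ∧ R.card = min b (free p \ Q).card

/-- Breaker has a legal strategy `τ` in the `(m:b)` game on `K_N` which guarantees, whatever legal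
moves Maker makes, that at no time Maker's edges contain a copy of `K_q`. -/
def BreakerCanPrevent (m b N q : ℕ) : Prop :=
  ∃ τ : Pos N → Finset (Sym2 (Fin N)) → Finset (Sym2 (Fin N)),
    (∀ p Q, LegalBreaker b p Q (τ p Q)) ∧
    ∀ Q R : ℕ → Finset (Sym2 (Fin N)), (∀ i, LegalMaker m (pos Q R i) (Q i)) →
      (∀ i, R i = τ (pos Q R i) (Q i)) → ∀ i, ¬ ContainsClique q (pos Q R i).maker

section breaker

open Pool.Agent.Y418.BG.Breaker

variable {N : ℕ} {m b q : ℕ}

/-- the edges inside a set of vertices -/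
def edgesOf (S : Finset (Fin N)) : Finset (Sym2 (Fin N)) :=
  S.offDiag.image (fun p => s(p.1, p.2))

theorem edgesOf_card (S : Finset (Fin N)) : (edgesOf S).card = S.card.choose 2 :=
  Sym2.card_image_offDiag S

theorem edgesOf_subset {S : Finset (Fin N)} {M : Finset (Sym2 (Fin N))}
    (h : ∀ u ∈ S, ∀ v ∈ S, u ≠ v → s(u, v) ∈ M) : edgesOf S ⊆ M := by
  intro z hz
  obtain ⟨p, hp, rfl⟩ := mem_image.1 hz
  rw [mem_offDiag] at hp
  exact h _ hp.1 _ hp.2.1 hp.2.2

/-- the edge sets of the cliques on `q` vertices -/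
def cliques (q N : ℕ) : Finset (Finset (Sym2 (Fin N))) :=
  (powersetCard q (univ : Finset (Fin N))).image edgesOf

/-- the base of the weights -/
noncomputable def gg (m b : ℕ) : ℝ := (1 + b : ℝ) ^ (1 / (m : ℝ))

theorem gg_pos : 0 < gg m b := Real.rpow_pos_of_pos (by positivity) _

theorem exists_reply' (hm : 1 ≤ m) (b q : ℕ) (p : Pos N) (Q : Finset (Sym2 (Fin N))) :
    ∃ R, LegalBreaker b p Q R ∧ ∀ Q' ⊆ (free p \ Q) \ R, Q'.card ≤ m →
      psi (gg m b) (cliques q N) (p.maker ∪ Q ∪ Q') (p.breaker ∪ R)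
        ≤ psi (gg m b) (cliques q N) (p.maker ∪ Q) p.breaker := by
  have hd : Disjoint (free p \ Q) (p.maker ∪ Q) := by
    rw [Finset.disjoint_left]
    intro e he he'
    unfold free at he
    simp only [mem_sdiff, mem_union, not_or] at he he'
    tauto
  obtain ⟨R, h1, h2, h3⟩ := exists_reply (F := cliques q N) (a := m) (b := b) hm (p.maker ∪ Q)
    p.breaker (free p \ Q) hd
  exact ⟨R, ⟨h1, h2⟩, h3⟩

/-- the strategy of Breaker -/
noncomputable def reply (hm : 1 ≤ m) (b q : ℕ) (p : Pos N) (Q : Finset (Sym2 (Fin N))) :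
    Finset (Sym2 (Fin N)) :=
  (exists_reply' hm b q p Q).choose

theorem pos_disjoint {Q R : ℕ → Finset (Sym2 (Fin N))}
    (hQ : ∀ i, LegalMaker m (pos Q R i) (Q i))
    (hR : ∀ i, LegalBreaker b (pos Q R i) (Q i) (R i)) (i : ℕ) :
    Disjoint (pos Q R i).maker (pos Q R i).breaker := by
  induction i with
  | zero => simp [pos]
  | succ i ih =>
    have h1 := (hQ i).1
    have h2 := (hR i).1
    rw [Finset.disjoint_left] at ih ⊢
    intro e he he'
    simp only [pos, mem_union] at he he'
    rcases he with he | he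
    · rcases he' with he' | he'
      · exact ih he he'
      · have h3 := h2 he'
        unfold free at h3
        simp only [mem_sdiff, mem_union, not_or] at h3
        exact h3.1.2.1 he
    · rcases he' with he' | he'
      · have h3 := h1 he
        unfold free at h3
        simp only [mem_sdiff, mem_union, not_or] at h3
        exact h3.2.2 he'
      · have h3 := h2 he'
        rw [mem_sdiff] at h3
        exact h3.2 he

theorem canPrevent_of_small (hm : 1 ≤ m)
    (h : (1 + b : ℝ) * ((N.choose q : ℝ) * (1 / gg m b) ^ (q.choose 2)) < 1) :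
    BreakerCanPrevent m b N q := by
  refine ⟨reply hm b q, fun p Q => (exists_reply' hm b q p Q).choose_spec.1, ?_⟩
  intro Q R hQ hτ
  have hg := gg_pos (m := m) (b := b)
  have hR : ∀ i, LegalBreaker b (pos Q R i) (Q i) (R i) := by
    intro i
    rw [hτ i]
    exact (exists_reply' hm b q (pos Q R i) (Q i)).choose_spec.1
  have h0 : psi (gg m b) (cliques q N) ∅ ∅ ≤ (N.choose q : ℝ) * (1 / gg m b) ^ (q.choose 2) := by
    unfold psi
    have h1 : ∀ A ∈ cliques q N, w (gg m b) ∅ ∅ A ≤ (1 / gg m b) ^ (q.choose 2) := by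
      intro A hA
      unfold cliques at hA
      rw [mem_image] at hA
      obtain ⟨S, hS, rfl⟩ := hA
      rw [mem_powersetCard] at hS
      unfold w
      simp [edgesOf_card, hS.2]
    refine (Finset.sum_le_sum h1).trans ?_
    rw [Finset.sum_const, nsmul_eq_mul]
    apply mul_le_mul_of_nonneg_right _ (by positivity)
    have h2 : (cliques q N).card ≤ N.choose q := by
      unfold cliques
      refine Finset.card_image_le.trans ?_
      rw [card_powersetCard]; simp
    exact_mod_cast h2
  have hinv : ∀ i, psi (gg m b) (cliques q N) ((pos Q R i).maker ∪ Q i) (pos Q R i).breaker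
      < 1 := by
    intro i
    induction i with
    | zero =>
      have h1 : (Q 0).card ≤ m := by
        rw [(hQ 0).2]; exact min_le_left _ _
      have h2 := psi_first (F := cliques q N) (a := m) (b := b) hm (Q 0) h1
      simp only [pos, Finset.empty_union]
      have hB : (0 : ℝ) ≤ 1 + b := by positivity
      calc psi (gg m b) (cliques q N) (Q 0) ∅
          ≤ (1 + b) * psi (gg m b) (cliques q N) ∅ ∅ := h2
        _ ≤ (1 + b) * ((N.choose q : ℝ) * (1 / gg m b) ^ (q.choose 2)) :=
            mul_le_mul_of_nonneg_left h0 hB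
        _ < 1 := h
    | succ i ih =>
      have h1 := (exists_reply' hm b q (pos Q R i) (Q i)).choose_spec.2
      have h2 : (exists_reply' hm b q (pos Q R i) (Q i)).choose = R i := (hτ i).symm
      rw [h2] at h1
      have h3 : (Q (i + 1)).card ≤ m := by
        rw [(hQ (i + 1)).2]; exact min_le_left _ _
      have h4 : Q (i + 1) ⊆ (free (pos Q R i) \ Q i) \ R i := by
        intro e he
        have h5 := (hQ (i + 1)).1 he
        unfold free at h5 ⊢
        simp only [pos, mem_sdiff, mem_union, not_or] at h5 ⊢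
        exact ⟨⟨⟨h5.1, h5.2.1.1, h5.2.2.1⟩, h5.2.1.2⟩, h5.2.2.2⟩
      exact lt_of_le_of_lt (h1 _ h4 h3) ih
  intro i hc
  obtain ⟨S, hS, hSM⟩ := hc
  have hSM' := edgesOf_subset hSM
  have h1 : edgesOf S ∈ cliques q N := by
    unfold cliques
    exact mem_image_of_mem _ (mem_powersetCard.mpr ⟨subset_univ _, hS⟩)
  have h2 : Disjoint (edgesOf S) (pos Q R i).breaker :=
    Finset.disjoint_of_subset_left hSM' (pos_disjoint hQ hR i)
  have h3 := psi_ge_one (F := cliques q N) (g := gg m b) hg h1 h2
    (hSM'.trans (Finset.subset_union_left (s₂ := Q i)))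
  exact absurd (hinv i) (not_lt.mpr h3)

end breaker

/-- `2 log_c N - 2 log_c log_c N` with `c = (m+b)/m` -/
noncomputable def val (m b N : ℕ) : ℝ :=
  2 * Real.logb (c m b) N - 2 * Real.logb (c m b) (Real.logb (c m b) N)

theorem c_two : c 2 2 = 2 := by
  unfold c; norm_num

/-- **Cliques in the fair and underdog games.** Let `2 ≤ m ≤ b` and
`val m b N = 2 log_c N - 2 log_c log_c N`, `c = (m+b)/m` (so `c = 2` when `m = b`).

1. There is `C` such that for all large `N` Maker has one strategy in the `(m:b)` game on `K_N`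
   which builds `K_q` for every `q ≤ val m b N - C` (and this range is not vacuous).
2. For `m = b`: there is `C` such that for all large `N` Maker can build `K_q` with
   `q = ⌊2 log₂ N - 2 log₂ log₂ N - C⌋` in the `(m:m)` game (for `m = 2` this is the question).
3. For every `ε > 0` and all large `N`, for every `q ≥ (1 + ε) 2 m log_{1+b} N` Breaker has a
   strategy which prevents Maker from ever owning a `K_q`. -/
theorem result (m b : ℕ) (hm : 2 ≤ m) (hmb : m ≤ b) :
    (∃ C : ℝ, ∃ N₀ : ℕ, ∀ N : ℕ, N₀ ≤ N →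
      7 ≤ val m b N - C ∧
      MakerCanForce m b N (fun M => ∀ q : ℕ, (q : ℝ) ≤ val m b N - C → ContainsClique q M)) ∧
    (∃ C : ℝ, ∃ N₀ : ℕ, ∀ N : ℕ, N₀ ≤ N → ∃ q : ℕ, 7 ≤ q ∧
      (q : ℤ) = ⌊2 * Real.logb 2 N - 2 * Real.logb 2 (Real.logb 2 N) - C⌋ ∧
      MakerCanBuild m m N q) ∧
    (∀ ε : ℝ, 0 < ε → ∃ N₀ : ℕ, ∀ N : ℕ, N₀ ≤ N → ∀ q : ℕ,
      (1 + ε) * (2 * m * Real.logb (1 + b) N) ≤ q → BreakerCanPrevent m b N q) := by
  have hm1 : 1 ≤ m := by omega
  have hb1 : 1 ≤ b := by omega
  have hmp : (0 : ℝ) < m := by exact_mod_cast hm1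
  refine ⟨?_, ?_, ?_⟩
  · obtain ⟨C, N₀, h⟩ := Pool.Agent.Helper340.MB.clique_forces m b hm1 hb1
    have hcc : Pool.Agent.Helper340.MB.cc m b = c m b := by
      unfold Pool.Agent.Helper340.MB.cc c
      field_simp
    rw [hcc] at h
    refine ⟨C, N₀, ?_⟩
    intro N hN
    obtain ⟨h7, hf⟩ := h N hN
    refine ⟨h7, ?_⟩
    obtain ⟨σ, hσ, hplay⟩ := Pool.Agent.Helper340.MB.exists_strategy hm1 hf
    refine ⟨fun p => σ p.maker p.breaker, fun p => hσ p.maker p.breaker, ?_⟩
    intro R hR
    obtain ⟨i, hi, hg⟩ := hplay (fun i => (play (fun p => σ p.maker p.breaker) R i).maker)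
      (fun i => (play (fun p => σ p.maker p.breaker) R i).breaker) R rfl rfl
      (fun _ => rfl) (fun _ => rfl) (fun i => hR i)
    refine ⟨i, hi, ?_⟩
    intro q hq
    exact Pool.Agent.Helper340.MB.HasClique.mono (Nat.le_floor hq) hg
  · obtain ⟨C, N₀, h⟩ := Pool.Agent.Helper340.MB.clique_forces m m hm1 hm1
    have hcc : Pool.Agent.Helper340.MB.cc m m = 2 := by
      unfold Pool.Agent.Helper340.MB.cc
      field_simp
      norm_num
    rw [hcc] at h
    refine ⟨C, N₀, ?_⟩
    intro N hN
    obtain ⟨h7, hf⟩ := h N hN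
    have h0 : 0 ≤ 2 * Real.logb 2 N - 2 * Real.logb 2 (Real.logb 2 N) - C := by linarith
    refine ⟨⌊2 * Real.logb 2 N - 2 * Real.logb 2 (Real.logb 2 N) - C⌋₊, ?_, ?_, ?_⟩
    · exact Nat.le_floor (by exact_mod_cast h7)
    · exact Int.natCast_floor_eq_floor h0
    · obtain ⟨σ, hσ, hplay⟩ := Pool.Agent.Helper340.MB.exists_strategy hm1 hf
      refine ⟨fun p => σ p.maker p.breaker, fun p => hσ p.maker p.breaker, ?_⟩
      intro R hR
      obtain ⟨i, hi, hg⟩ := hplay (fun i => (play (fun p => σ p.maker p.breaker) R i).maker)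
        (fun i => (play (fun p => σ p.maker p.breaker) R i).breaker) R rfl rfl
        (fun _ => rfl) (fun _ => rfl) (fun i => hR i)
      exact ⟨i, hi, Pool.Agent.Helper340.MB.HasClique.mono le_rfl hg⟩
  · intro ε hε
    obtain ⟨N₀, h⟩ := Filter.eventually_atTop.1
      (Pool.Agent.Y418.BG.Breaker.eventually_small (a := m) (b := b) (r := 2) hm1 hb1 le_rfl hε)
    refine ⟨N₀, fun N hN q hq => canPrevent_of_small hm1 (h N hN q ?_)⟩
    refine le_trans (le_of_eq ?_) hq
    have e1 : (1 : ℝ) / (((2 : ℕ) : ℝ) - 1) = 1 := by norm_num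
    rw [e1, Real.rpow_one]
    have e2 : ((Nat.factorial 2 : ℕ) : ℝ) = 2 := by norm_num [Nat.factorial]
    rw [e2]
    ring

end Pool.Agent.Results.MP_a50aef_co.FairAndUnderdog
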